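import Mathlib
import Pool.Agent.TH578.FanA
import Pool.Agent.Helper292.ForceCH

/-!
# The Frechet-Urysohn fan in `C_p(X)` for a Menger space `X`

It is consistent with ZFC that the fan embeds in `C_p(X)` for some Tychonoff space `X` with the
covering property of the problem; and any such space gives a separable metrizable space with the
covering property, some finite power of which does not have it.
-/

set_option autoImplicit false

namespace Pool.Agent.Results.MP_b8a914_gt.FanIndependence

open Set Cardinal Pool.Agent.TH578.Fan

universe u

/-- (1) Some notion of forcing forces the continuum hypothesis, with `ω₁` preserved.  (2) The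
continuum hypothesis gives a Tychonoff Menger space `X` such that the fan embeds in `C_p(X)`.
(3) If the fan embeds in `C_p(X)` for some topological space `X` which is Menger, then there is a
Menger set `Y` in the space of real double sequences such that some finite power of `Y` is not
Menger. -/
theorem result :
    (∃ (P : Type) (_ : Preorder P), Nonempty P ∧ ∀ p : P,
      p ∈ Pool.Agent.Helper292.ForceCH.OmegaOnePreserved P ∧
      p ∈ Pool.Agent.Helper292.ForceCH.CHHolds P) ∧
    (Cardinal.aleph 1 = Cardinal.continuum.{0} →
      ∃ (X : Type) (_ : TopologicalSpace X), T35Space X ∧ Menger X ∧ FanEmbeds X) ∧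
    (∀ (X : Type u) (_ : TopologicalSpace X), Menger X → FanEmbeds X →
      ∃ Y : Set (ℕ × ℕ → ℝ), Menger Y ∧ ∃ k : ℕ, ¬ Menger (Fin k → Y)) := by
  refine ⟨?_, fun hCH => ?_, fun X _ hM hF => reduction X hM hF⟩
  · obtain ⟨P, i, h1, h2⟩ := Pool.Agent.Helper292.ForceCH.exists_forcing
    exact ⟨P, i, h1, fun p => ⟨(h2 p).1, (h2 p).2.2⟩⟩
  · obtain ⟨X, hM, hF⟩ := exists_of_ch hCH
    exact ⟨X, inferInstance, inferInstance, hM, hF⟩

end Pool.Agent.Results.MP_b8a914_gt.FanIndependence
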